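import Pool.Agent.Lib.MP_115f17_an.Core

set_option autoImplicit false

namespace Pool.Agent.MP115f17

open Filter Topology

/-- spacing of the index `p` -/
def sp (p : ℕ) : ℕ := (Nat.unpair p).2 + 1

theorem sp_pos (p : ℕ) : 0 < sp p := Nat.succ_pos _

/-- the times of index `p` -/
def tm (M : ℕ → ℕ) (p : ℕ) : Set ℕ :=
  {m | ∃ k, 1 ≤ k ∧ padicValNat 2 k = p ∧ M p + 1 ≤ k ∧ 4 ^ k ≤ m ∧ m < 2 * 4 ^ k ∧ sp p ∣ m}

theorem four_le (a : ℕ) : 4 * a ≤ 4 ^ (a + 1) := by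
  have h : a < 4 ^ a := Nat.lt_pow_self (by norm_num)
  rw [pow_succ]
  omega

theorem pow_ge {M : ℕ} {k : ℕ} (h : M + 1 ≤ k) : 4 * M ≤ 4 ^ k :=
  (four_le M).trans (Nat.pow_le_pow_right (by norm_num) h)

/-- times of index `p` are far from the times in a block of another index -/
theorem dist_block {M : ℕ → ℕ} {p k' n m : ℕ} (hp : padicValNat 2 k' ≠ p)
    (h1 : 4 ^ k' ≤ n) (h2 : n < 2 * 4 ^ k') (hm : m ∈ tm M p) :
    ((M p : ℕ) : ℤ) ≤ |(m : ℤ) - n| ∧ (4 ^ k' : ℤ) ≤ 2 * |(m : ℤ) - n| := by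
  obtain ⟨k, hk1, hkp, hkM, hm1, hm2, -⟩ := hm
  have hM := pow_ge hkM
  rcases lt_trichotomy k k' with h | h | h
  · have h3 : 4 ^ (k + 1) ≤ 4 ^ k' := Nat.pow_le_pow_right (by norm_num) h
    rw [pow_succ] at h3
    have h4 : |(m : ℤ) - n| = (n : ℤ) - m := by
      rw [abs_of_nonpos]
      · ring
      · have : m ≤ n := by omega
        omega
    rw [h4]
    have h3' : (4 ^ k : ℤ) * 4 ≤ 4 ^ k' := by exact_mod_cast h3
    have hm2' : (m : ℤ) < 2 * 4 ^ k := by exact_mod_cast hm2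
    have h1' : (4 ^ k' : ℤ) ≤ n := by exact_mod_cast h1
    have hM' : (4 : ℤ) * (M p : ℤ) ≤ 4 ^ k := by exact_mod_cast hM
    constructor <;> omega
  · exact absurd (h ▸ hkp) hp
  · have h3 : 4 ^ (k' + 1) ≤ 4 ^ k := Nat.pow_le_pow_right (by norm_num) h
    rw [pow_succ] at h3
    have h4 : |(m : ℤ) - n| = (m : ℤ) - n := by
      rw [abs_of_nonneg]
      have : n ≤ m := by omega
      omega
    rw [h4]
    have h3' : (4 ^ k' : ℤ) * 4 ≤ 4 ^ k := by exact_mod_cast h3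
    have hm1' : (4 ^ k : ℤ) ≤ m := by exact_mod_cast hm1
    have h2' : (n : ℤ) < 2 * 4 ^ k' := by exact_mod_cast h2
    have hM' : (4 : ℤ) * (M p : ℤ) ≤ 4 ^ k := by exact_mod_cast hM
    constructor <;> omega

/-- all times are far from the middle of the gaps -/
theorem dist_gap {M : ℕ → ℕ} {p j n m : ℕ}
    (h1 : 10 * 4 ^ j ≤ n) (h2 : n ≤ 12 * 4 ^ j) (hm : m ∈ tm M p) :
    ((M p : ℕ) : ℤ) ≤ |(m : ℤ) - n| ∧ (4 ^ j : ℤ) ≤ |(m : ℤ) - n| := by
  obtain ⟨k, hk1, hkp, hkM, hm1, hm2, -⟩ := hm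
  have hM := pow_ge hkM
  have hM' : (4 : ℤ) * (M p : ℤ) ≤ 4 ^ k := by exact_mod_cast hM
  have h1' : (10 * 4 ^ j : ℤ) ≤ n := by exact_mod_cast h1
  have h2' : (n : ℤ) ≤ 12 * 4 ^ j := by exact_mod_cast h2
  have hm1' : (4 ^ k : ℤ) ≤ m := by exact_mod_cast hm1
  have hm2' : (m : ℤ) < 2 * 4 ^ k := by exact_mod_cast hm2
  have hj0 : (0 : ℤ) < 4 ^ j := by positivity
  rcases le_or_gt k (j + 1) with h | h
  · have h3 : 4 ^ k ≤ 4 ^ (j + 1) := Nat.pow_le_pow_right (by norm_num) h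
    rw [pow_succ] at h3
    have h3' : (4 ^ k : ℤ) ≤ 4 ^ j * 4 := by exact_mod_cast h3
    have h4 : |(m : ℤ) - n| = (n : ℤ) - m := by
      rw [abs_of_nonpos]
      · ring
      · omega
    rw [h4]
    constructor <;> omega
  · have h3 : 4 ^ (j + 2) ≤ 4 ^ k := Nat.pow_le_pow_right (by norm_num) h
    have h5 : 4 ^ (j + 2) = 16 * 4 ^ j := by ring
    rw [h5] at h3
    have h3' : (16 * 4 ^ j : ℤ) ≤ 4 ^ k := by exact_mod_cast h3
    have h4 : |(m : ℤ) - n| = (m : ℤ) - n := by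
      rw [abs_of_nonneg]
      omega
    rw [h4]
    constructor <;> omega

/-- each index has positive lower density -/
theorem dens_tm (M : ℕ → ℕ) (p L : ℕ) :
    ∃ c : ℝ, 0 < c ∧ ∀ᶠ N : ℕ in atTop, c ≤ frac (tm M p ∩ Set.Ici L) N := by
  refine ⟨1 / (3 * (sp p : ℝ) * 4 ^ (2 ^ (p + 1) + 1)), by
    have := sp_pos p
    positivity, ?_⟩
  rw [eventually_atTop]
  refine ⟨4 ^ (M p + L + sp p + 2 + 2 ^ (p + 1)), fun N hN => ?_⟩
  set l := Nat.log 4 N with hl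
  have hN0 : N ≠ 0 := by
    have : 0 < 4 ^ (M p + L + sp p + 2 + 2 ^ (p + 1)) := by positivity
    omega
  have hl1 : 4 ^ l ≤ N := Nat.pow_log_le_self 4 hN0
  have hl2 : N < 4 ^ (l + 1) := Nat.lt_pow_succ_log_self (by norm_num) N
  have hl3 : M p + L + sp p + 2 + 2 ^ (p + 1) ≤ l := Nat.le_log_of_pow_le (by norm_num) hN
  have hpow : 2 ^ (p + 1) = 2 * 2 ^ p := by ring
  have h2p : 0 < 2 ^ p := by positivity
  -- the block
  set t := (l - 1 - 2 ^ p) / 2 ^ (p + 1) with ht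
  set k := 2 ^ p * (2 * t + 1) with hk
  have hk1 : k = 2 ^ (p + 1) * t + 2 ^ p := by rw [hk, hpow]; ring
  have hmod := Nat.div_add_mod (l - 1 - 2 ^ p) (2 ^ (p + 1))
  have hmod2 := Nat.mod_lt (l - 1 - 2 ^ p) (show 0 < 2 ^ (p + 1) by positivity)
  rw [← ht] at hmod
  have hkl : k + 1 ≤ l := by rw [hk1]; omega
  have hkl2 : l ≤ k + 2 ^ (p + 1) := by rw [hk1]; omega
  have hkM : M p + L + sp p + 1 ≤ k := by omega
  have hval : padicValNat 2 k = p := by
    rw [hk, padicValNat.mul (by positivity) (by omega), padicValNat.prime_pow]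
    have : padicValNat 2 (2 * t + 1) = 0 := by
      apply padicValNat.eq_zero_of_not_dvd
      omega
    omega
  -- multiples
  have hs := sp_pos p
  set F := 4 ^ k / sp p with hF
  have hdm := Nat.div_add_mod (4 ^ k) (sp p)
  have hdm2 := Nat.mod_lt (4 ^ k) hs
  rw [← hF] at hdm
  have hself : k < 4 ^ k := Nat.lt_pow_self (by norm_num)
  have hFpos : 2 ≤ F := by
    rw [hF, Nat.le_div_iff_mul_le hs]
    have h6 : 4 ^ (k - 1 + 1) = 4 * 4 ^ (k - 1) := by ring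
    have h7 : k - 1 + 1 = k := by omega
    rw [h7] at h6
    have h8 : k - 1 < 4 ^ (k - 1) := Nat.lt_pow_self (by norm_num)
    omega
  have hcard : F - 1 ≤ ((tm M p ∩ Set.Ici L) ∩ Set.Iic N).ncard := by
    classical
    let g : ℕ → ℕ := fun s => sp p * (s + F + 1)
    have hginj : Function.Injective g := by
      intro a c h
      have h6 : sp p * (a + F + 1) = sp p * (c + F + 1) := h
      have h7 := Nat.eq_of_mul_eq_mul_left hs h6
      omega
    have hsub : (((Finset.range (F - 1)).image g : Finset ℕ) : Set ℕ) ⊆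
        (tm M p ∩ Set.Ici L) ∩ Set.Iic N := by
      intro m hm
      rw [Finset.mem_coe, Finset.mem_image] at hm
      obtain ⟨s, hs', rfl⟩ := hm
      rw [Finset.mem_range] at hs'
      have e1 : sp p * (s + F + 1) = sp p * s + sp p * F + sp p := by ring
      have e2 : sp p * s + 2 * sp p ≤ sp p * F := by
        calc sp p * s + 2 * sp p = sp p * (s + 2) := by ring
          _ ≤ sp p * F := Nat.mul_le_mul_left _ (by omega)
      have h5 : 4 ^ k ≤ g s := by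
        show 4 ^ k ≤ sp p * (s + F + 1)
        rw [e1]
        omega
      have hub : g s < 2 * 4 ^ k := by
        show sp p * (s + F + 1) < _
        rw [e1]
        omega
      have h9 : 4 ^ (k + 1) ≤ 4 ^ l := Nat.pow_le_pow_right (by norm_num) hkl
      rw [pow_succ] at h9
      refine ⟨⟨⟨k, by omega, hval, by omega, h5, hub, Dvd.intro _ rfl⟩, ?_⟩, ?_⟩
      · show L ≤ g s
        omega
      · show g s ≤ N
        omega
    calc F - 1 = ((Finset.range (F - 1)).image g).card := by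
          rw [Finset.card_image_of_injective _ hginj, Finset.card_range]
      _ = (((Finset.range (F - 1)).image g : Finset ℕ) : Set ℕ).ncard :=
          (Set.ncard_coe_finset _).symm
      _ ≤ _ := Set.ncard_le_ncard hsub ((Set.finite_Iic N).subset Set.inter_subset_right)
  have hup : 4 ^ k ≤ 3 * sp p * (F - 1) := by
    obtain ⟨f, hf⟩ : ∃ f, F = f + 2 := ⟨F - 2, by omega⟩
    rw [hf] at hdm ⊢
    have e3 : f + 2 - 1 = f + 1 := by omega
    rw [e3]
    nlinarith [hs, hdm, hdm2, Nat.zero_le (sp p * f)]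
  unfold frac
  have hNle : ((N : ℝ) + 1) ≤ 4 ^ (2 ^ (p + 1) + 1) * 4 ^ k := by
    have h10 : N + 1 ≤ 4 ^ (2 ^ (p + 1) + 1) * 4 ^ k := by
      rw [← pow_add]
      calc N + 1 ≤ 4 ^ (l + 1) := hl2
        _ ≤ _ := Nat.pow_le_pow_right (by norm_num) (by omega)
    exact_mod_cast h10
  have hN1 : (0 : ℝ) < (N : ℝ) + 1 := by positivity
  rw [le_div_iff₀ hN1]
  have hcard' : ((F - 1 : ℕ) : ℝ) ≤ (((tm M p ∩ Set.Ici L) ∩ Set.Iic N).ncard : ℝ) := by
    exact_mod_cast hcard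
  have hup' : (4 : ℝ) ^ k ≤ 3 * (sp p : ℝ) * ((F - 1 : ℕ) : ℝ) := by exact_mod_cast hup
  have hsR : (0 : ℝ) < sp p := by exact_mod_cast hs
  calc 1 / (3 * (sp p : ℝ) * 4 ^ (2 ^ (p + 1) + 1)) * ((N : ℝ) + 1)
      ≤ 1 / (3 * (sp p : ℝ) * 4 ^ (2 ^ (p + 1) + 1)) * (4 ^ (2 ^ (p + 1) + 1) * 4 ^ k) := by
        apply mul_le_mul_of_nonneg_left hNle (by positivity)
    _ = 4 ^ k / (3 * (sp p : ℝ)) := by
        field_simp
    _ ≤ ((F - 1 : ℕ) : ℝ) := by
        rw [div_le_iff₀ (by positivity)]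
        linarith
    _ ≤ _ := hcard'

end Pool.Agent.MP115f17
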