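import Pool.Agent.Lib.MP_115f17_an.Defs

set_option autoImplicit false

namespace Pool.Agent.MP115f17

open Filter Topology

section Series

variable {𝕜 : Type*} [RCLike 𝕜] {X : Type*} [NormedAddCommGroup X] [NormedSpace 𝕜 X]
  [CompleteSpace X]

/-- sums of a summable two-sided sequence far from the origin are small -/
theorem vanish {b : ℤ → X} (hb : Summable b) {ε : ℝ} (hε : 0 < ε) :
    ∃ M : ℕ, ∀ F : Finset ℤ, (∀ r ∈ F, (M : ℤ) ≤ |r|) → ‖∑ r ∈ F, b r‖ ≤ ε := by
  obtain ⟨s, hs⟩ := summable_iff_vanishing_norm.1 hb ε hε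
  refine ⟨(s.sup fun r => r.natAbs) + 1, fun F hF => (hs F ?_).le⟩
  rw [Finset.disjoint_left]
  intro r hr hrs
  have h1 := hF r hr
  have h2 : r.natAbs ≤ s.sup fun r => r.natAbs := Finset.le_sup (f := fun r : ℤ => r.natAbs) hrs
  have h3 : ((r.natAbs : ℕ) : ℤ) = |r| := Int.natCast_natAbs r
  rw [← h3] at h1
  have h4 : (s.sup fun r => r.natAbs) + 1 ≤ r.natAbs := by exact_mod_cast h1
  omega

/-- the sum of `b (m - n)` over `m` in `A` -/
noncomputable def G (A : Set ℕ) (b : ℤ → X) (n : ℕ) : X :=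
  ∑' m : ℕ, A.indicator (fun m => b ((m : ℤ) - n)) m

theorem summG (A : Set ℕ) {b : ℤ → X} (hb : Summable b) (n : ℕ) :
    Summable (A.indicator (fun m : ℕ => b ((m : ℤ) - n))) := by
  apply Summable.indicator
  have hinj : Function.Injective (fun m : ℕ => (m : ℤ) - n) := by
    intro a c h
    have : (a : ℤ) - n = (c : ℤ) - n := h
    omega
  exact hb.comp_injective hinj

theorem G_step (T : X →L[𝕜] X) (A : Set ℕ) {b : ℤ → X} (hb : Summable b)
    (hT : ∀ r, T (b r) = b (r - 1)) (n : ℕ) : T (G A b n) = G A b (n + 1) := by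
  unfold G
  rw [T.map_tsum (summG A hb n)]
  congr 1
  funext m
  by_cases h : m ∈ A
  · simp only [Set.indicator_of_mem h]
    rw [hT]
    congr 1
    push_cast
    ring
  · simp only [Set.indicator_of_notMem h, map_zero]

theorem G_bound {A : Set ℕ} {b : ℤ → X} (hb : Summable b) {n M : ℕ} {ε : ℝ}
    (hM : ∀ F : Finset ℤ, (∀ r ∈ F, (M : ℤ) ≤ |r|) → ‖∑ r ∈ F, b r‖ ≤ ε)
    (hA : ∀ m ∈ A, (M : ℤ) ≤ |(m : ℤ) - n|) : ‖G A b n‖ ≤ ε := by
  have hs := (summG A hb n).hasSum
  have ht : Tendsto (fun t : Finset ℕ => ‖∑ m ∈ t, A.indicator (fun m : ℕ => b ((m : ℤ) - n)) m‖)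
      atTop (𝓝 ‖G A b n‖) := hs.norm
  refine le_of_tendsto' ht fun t => ?_
  classical
  have h1 : ∑ m ∈ t, A.indicator (fun m : ℕ => b ((m : ℤ) - n)) m
      = ∑ r ∈ (t.filter (fun m => m ∈ A)).image (fun m : ℕ => (m : ℤ) - n), b r := by
    rw [Finset.sum_image, Finset.sum_filter]
    · rfl
    · intro a _ c _ h
      have : (a : ℤ) - n = (c : ℤ) - n := h
      omega
  rw [h1]
  apply hM
  intro r hr
  rw [Finset.mem_image] at hr
  obtain ⟨m, hm, rfl⟩ := hr
  exact hA m (Finset.mem_filter.1 hm).2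

theorem G_split {A : Set ℕ} {b : ℤ → X} (hb : Summable b) {n : ℕ} (hn : n ∈ A) :
    G A b n = b 0 + G (A \ {n}) b n := by
  unfold G
  have h1 : A.indicator (fun m : ℕ => b ((m : ℤ) - n))
      = fun m => (({n} : Set ℕ).indicator (fun m : ℕ => b ((m : ℤ) - n)) m
        + (A \ {n}).indicator (fun m : ℕ => b ((m : ℤ) - n)) m) := by
    funext m
    by_cases h : m = n
    · subst h
      simp [hn]
    · by_cases h2 : m ∈ A
      · simp [h, h2]
      · simp [h, h2]
  rw [h1, Summable.tsum_add (summG {n} hb n) (summG (A \ {n}) hb n)]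
  congr 1
  rw [tsum_eq_single n]
  · simp
  · intro m hm
    simp [hm]

end Series

end Pool.Agent.MP115f17
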