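import Mathlib

set_option autoImplicit false

namespace Pool.Agent.MP115f17

open Filter Topology

/-- The visit set `N_T(x, U)`: the times `n` with `T^n x` in `U`. -/
def visit {X : Type*} (T : X → X) (x : X) (U : Set X) : Set ℕ := {n | T^[n] x ∈ U}

/-- The proportion `|A ∩ [0,N]| / (N+1)`. -/
noncomputable def frac (A : Set ℕ) (N : ℕ) : ℝ :=
  ((A ∩ Set.Iic N).ncard : ℝ) / ((N : ℝ) + 1)

/-- The lower density of `A`. -/
noncomputable def lowerDensity (A : Set ℕ) : ℝ := liminf (frac A) atTop

/-- `A` has the density `d`. -/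
def HasDensity (A : Set ℕ) (d : ℝ) : Prop := Tendsto (frac A) atTop (𝓝 d)

/-- `x` is frequently hypercyclic for `T`. -/
def FreqHypercyclic {X : Type*} [TopologicalSpace X] (T : X → X) (x : X) : Prop :=
  ∀ U : Set X, IsOpen U → U.Nonempty → 0 < lowerDensity (visit T x U)

/-- The Frequent Hypercyclicity Criterion for a bounded linear map `T`: there are a dense set `D`
and a map `S` of `D` into itself with `T S y = y` such that the series of all `T^n y` and of all
`S^n y` converge unconditionally for all `y` in `D`. -/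
def FHCriterion (𝕜 : Type*) [RCLike 𝕜] {X : Type*} [NormedAddCommGroup X] [NormedSpace 𝕜 X]
    (T : X → X) : Prop :=
  IsBoundedLinearMap 𝕜 T ∧ ∃ (D : Set X) (S : X → X), Dense D ∧ ∀ y ∈ D, S y ∈ D ∧
    T (S y) = y ∧ Summable (fun n : ℕ => T^[n] y) ∧ Summable (fun n : ℕ => S^[n] y)

/-- No subset of `A` has a density other than `0`. -/
def NoDensity (A : Set ℕ) : Prop := ∀ B : Set ℕ, B ⊆ A → ∀ d : ℝ, HasDensity B d → d = 0

end Pool.Agent.MP115f17
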