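import Pool.Agent.Lib.MP_115f17_an.Vec

set_option autoImplicit false

namespace Pool.Agent.MP115f17

open Filter Topology

section Main

variable {𝕜 : Type*} [RCLike 𝕜] {X : Type*} [NormedAddCommGroup X] [NormedSpace 𝕜 X]
  [CompleteSpace X]

theorem exists_vector (T : X →L[𝕜] X) {b : ℕ → ℤ → X} (hb : ∀ i, Summable (b i))
    (hT : ∀ i r, T (b i r) = b i (r - 1)) (hd : DenseRange fun i => b i 0) :
    ∃ x : X, FreqHypercyclic T x ∧ ∀ U : Set X, IsOpen U → 0 ∉ closure U →
      ∀ A : Set ℕ, A ⊆ visit T x U → ∀ d : ℝ, HasDensity A d → d = 0 := by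
  have hM : ∀ p, ∃ M : ℕ, ∀ F : Finset ℤ, (∀ r ∈ F, (M : ℤ) ≤ |r|) →
      ‖∑ r ∈ F, b (ti p) r‖ ≤ (1 / 4) ^ p := fun p => vanish (hb _) (by positivity)
  choose M hM using hM
  refine ⟨∑' p, G (tm M p) (b (ti p)) 0, ?_, ?_⟩
  · intro U hU hUne
    obtain ⟨i, hi⟩ : ∃ i, b i 0 ∈ U := hd.exists_mem_open hU hUne
    obtain ⟨ε, hε, hball⟩ := Metric.isOpen_iff.1 hU (b i 0) hi
    obtain ⟨N0, hN0⟩ := vanish (hb i) (show 0 < ε / 3 by positivity)
    set p := Nat.pair i N0 with hp
    have htp : ti p = i := by rw [ti, hp, Nat.unpair_pair]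
    have hsp : sp p = N0 + 1 := by rw [sp, hp, Nat.unpair_pair]
    obtain ⟨R, hR⟩ := tannery hb hM (show 0 < ε / 3 by positivity)
    obtain ⟨c, hc, hev⟩ := dens_tm M p (4 * 4 ^ R)
    refine lower_pos hc ?_
    filter_upwards [hev] with N hN
    refine hN.trans (frac_mono ?_ N)
    rintro n ⟨hn, hnR⟩
    show (⇑T)^[n] _ ∈ U
    apply hball
    rw [Metric.mem_ball, dist_eq_norm]
    obtain ⟨k, hk1, hkp, hkM, hn1, hn2, hdvd⟩ := id hn
    have hsum := hasSum_orbit T hb hT hM n
    have hsumm := hsum.summable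
    have e1 : (⇑T)^[n] (∑' p, G (tm M p) (b (ti p)) 0)
        = G (tm M p) (b (ti p)) n
          + ∑' q, ({p}ᶜ : Set ℕ).indicator (fun q => G (tm M q) (b (ti q)) n) q := by
      rw [← hsum.tsum_eq]
      have e2 : (fun q => G (tm M q) (b (ti q)) n) = fun q =>
          (({p} : Set ℕ).indicator (fun q => G (tm M q) (b (ti q)) n) q
            + ({p}ᶜ : Set ℕ).indicator (fun q => G (tm M q) (b (ti q)) n) q) := by
        funext q
        by_cases h : q = p
        · subst h
          simp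
        · simp [h]
      conv_lhs => rw [e2]
      rw [Summable.tsum_add (hsumm.indicator _) (hsumm.indicator _)]
      congr 1
      rw [tsum_eq_single p]
      · simp
      · intro q hq
        simp [hq]
    have h2 : ‖∑' q, ({p}ᶜ : Set ℕ).indicator (fun q => G (tm M q) (b (ti q)) n) q‖ ≤ ε / 3 := by
      apply hR
      intro q hq m hm
      have hne : padicValNat 2 k ≠ q := by
        rw [hkp]
        exact fun h => hq h.symm
      obtain ⟨h3, h4⟩ := dist_block hne hn1 hn2 hm
      refine ⟨h3, ?_⟩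
      have h5 : 4 * 4 ^ R ≤ n := hnR
      have h6 : R < 4 ^ R := Nat.lt_pow_self (by norm_num)
      have h7 : 2 * R ≤ 4 ^ k := by omega
      have h8 : (2 * R : ℤ) ≤ 4 ^ k := by exact_mod_cast h7
      omega
    have h3 : ‖G (tm M p) (b (ti p)) n - b i 0‖ ≤ ε / 3 := by
      rw [G_split (hb _) hn, htp, add_sub_cancel_left]
      apply G_bound (hb _) hN0
      intro m hm
      obtain ⟨⟨k2, -, -, -, -, -, hdvd2⟩, hmn⟩ := hm
      have hmn' : m ≠ n := hmn
      have h5 : (sp p : ℤ) ∣ (m : ℤ) - n := by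
        apply dvd_sub
        · exact_mod_cast hdvd2
        · exact_mod_cast hdvd
      have h6 : (m : ℤ) - n ≠ 0 := by omega
      have h7 := Int.le_of_dvd (abs_pos.2 h6) ((dvd_abs _ _).2 h5)
      rw [hsp] at h7
      push_cast at h7
      omega
    rw [e1]
    calc ‖G (tm M p) (b (ti p)) n
          + ∑' q, ({p}ᶜ : Set ℕ).indicator (fun q => G (tm M q) (b (ti q)) n) q - b i 0‖
        = ‖(G (tm M p) (b (ti p)) n - b i 0)
          + ∑' q, ({p}ᶜ : Set ℕ).indicator (fun q => G (tm M q) (b (ti q)) n) q‖ := by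
          congr 1
          abel
      _ ≤ ε / 3 + ε / 3 := (norm_add_le _ _).trans (add_le_add h3 h2)
      _ < ε := by linarith
  · intro U hU h0 A hA d hd'
    have hopen : (closure U)ᶜ ∈ 𝓝 (0 : X) := isClosed_closure.isOpen_compl.mem_nhds h0
    obtain ⟨ε, hε, hball⟩ := Metric.mem_nhds_iff.1 hopen
    obtain ⟨R, hR⟩ := tannery hb hM (show 0 < ε / 2 by positivity)
    refine dens_zero hd' ?_
    rw [eventually_atTop]
    refine ⟨R, fun j hj n hn1 hn2 hnA => ?_⟩
    have h1 : (⇑T)^[n] (∑' p, G (tm M p) (b (ti p)) 0) ∈ U := hA hnA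
    have hsum := hasSum_orbit T hb hT hM n
    have h2 : ‖(⇑T)^[n] (∑' p, G (tm M p) (b (ti p)) 0)‖ ≤ ε / 2 := by
      rw [← hsum.tsum_eq]
      have := hR n Set.univ (fun p _ m hm => ?_)
      · simpa using this
      · obtain ⟨h3, h4⟩ := dist_gap hn1 hn2 hm
        refine ⟨h3, ?_⟩
        have h5 : R < 4 ^ R := Nat.lt_pow_self (by norm_num)
        have h6 : 4 ^ R ≤ 4 ^ j := Nat.pow_le_pow_right (by norm_num) hj
        have h7 : R ≤ 4 ^ j := by omega
        have h8 : (R : ℤ) ≤ 4 ^ j := by exact_mod_cast h7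
        omega
    have h3 : (⇑T)^[n] (∑' p, G (tm M p) (b (ti p)) 0) ∈ Metric.ball (0 : X) ε := by
      rw [mem_ball_zero_iff]
      linarith
    exact hball h3 (subset_closure h1)

theorem of_criterion [TopologicalSpace.SeparableSpace X] (T0 : X → X)
    (hT : FHCriterion 𝕜 T0) :
    ∃ x : X, FreqHypercyclic T0 x ∧ ∀ U : Set X, IsOpen U → 0 ∉ closure U →
      NoDensity (visit T0 x U) := by
  obtain ⟨hlin, D, S, hD, hS⟩ := hT
  obtain ⟨T, rfl⟩ : ∃ T : X →L[𝕜] X, (T : X → X) = T0 := ⟨hlin.toContinuousLinearMap, rfl⟩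
  have hne : D.Nonempty := hD.nonempty
  have : Nonempty D := hne.to_subtype
  have : SecondCountableTopology X := UniformSpace.secondCountable_of_separable X
  have hdr : DenseRange (fun i : ℕ => ((TopologicalSpace.denseSeq D i : D) : X)) := by
    have h1 : DenseRange (fun z : D => (z : X)) := by
      rw [DenseRange, Subtype.range_coe]
      exact hD
    exact h1.comp (TopologicalSpace.denseRange_denseSeq D) continuous_subtype_val
  let y : ℕ → X := fun i => ((TopologicalSpace.denseSeq D i : D) : X)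
  have hy : ∀ i, y i ∈ D := fun i => (TopologicalSpace.denseSeq D i).2
  let b : ℕ → ℤ → X := fun i r => if 0 ≤ r then S^[r.toNat] (y i) else (⇑T)^[(-r).toNat] (y i)
  have hSit : ∀ i n, S^[n] (y i) ∈ D := by
    intro i n
    induction n with
    | zero => exact hy i
    | succ n ih =>
      rw [Function.iterate_succ_apply']
      exact (hS _ ih).1
  refine exists_vector T (b := b) ?_ ?_ ?_
  · intro i
    apply Summable.of_nat_of_neg_add_one
    · have := (hS _ (hy i)).2.2.2
      refine this.congr fun n => ?_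
      simp [b]
    · have := (summable_nat_add_iff 1).2 (hS _ (hy i)).2.2.1
      refine this.congr fun n => ?_
      have h1 : ¬ (0 : ℤ) ≤ -((n : ℤ) + 1) := by omega
      have h2 : (-(-((n : ℤ) + 1))).toNat = n + 1 := by omega
      simp only [b, if_neg h1, h2]
  · intro i r
    rcases lt_trichotomy r 0 with h | h | h
    · have h1 : ¬ (0 : ℤ) ≤ r := by omega
      have h2 : ¬ (0 : ℤ) ≤ r - 1 := by omega
      have h3 : (-(r - 1)).toNat = (-r).toNat + 1 := by omega
      simp only [b, if_neg h1, if_neg h2, h3, Function.iterate_succ_apply']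
    · subst h
      have h2 : ¬ (0 : ℤ) ≤ 0 - 1 := by omega
      simp [b]
    · have h1 : (0 : ℤ) ≤ r := by omega
      have h2 : (0 : ℤ) ≤ r - 1 := by omega
      have h3 : r.toNat = (r - 1).toNat + 1 := by omega
      simp only [b, if_pos h1, if_pos h2, h3, Function.iterate_succ_apply']
      exact (hS _ (hSit i _)).2.1
  · simpa [b] using hdr

end Main

end Pool.Agent.MP115f17
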