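import Pool.Agent.Lib.MP_115f17_an.Main

set_option autoImplicit false

namespace Pool.Agent.MP115f17

open Filter Topology ZeroAtInfty

variable {𝕜 : Type} [RCLike 𝕜]

theorem c0_norm_le (f : C₀(ℕ, 𝕜)) (C : ℝ) (hC : 0 ≤ C) (h : ∀ j, ‖f j‖ ≤ C) : ‖f‖ ≤ C := by
  rw [← ZeroAtInftyContinuousMap.norm_toBCF_eq_norm]
  rw [BoundedContinuousFunction.norm_le hC]
  exact h

theorem c0_coord_le (f : C₀(ℕ, 𝕜)) (j : ℕ) : ‖f j‖ ≤ ‖f‖ := by
  rw [← ZeroAtInftyContinuousMap.norm_toBCF_eq_norm]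
  exact BoundedContinuousFunction.norm_coe_le_norm f.toBCF j

/-- a null sequence as an element of `c₀` -/
noncomputable def mkC (u : ℕ → 𝕜) (hu : Tendsto u atTop (𝓝 0)) : C₀(ℕ, 𝕜) where
  toFun := u
  continuous_toFun := continuous_of_discreteTopology
  zero_at_infty' := by
    rw [cocompact_eq_cofinite, Nat.cofinite_eq_atTop]
    exact hu

theorem c0_tendsto (f : C₀(ℕ, 𝕜)) : Tendsto (fun j => f j) atTop (𝓝 0) := by
  have := zero_at_infty f
  rw [cocompact_eq_cofinite, Nat.cofinite_eq_atTop] at this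
  exact this

/-- `c` times the backward shift -/
noncomputable def bshift (c : 𝕜) : C₀(ℕ, 𝕜) →L[𝕜] C₀(ℕ, 𝕜) :=
  LinearMap.mkContinuous
    { toFun := fun f => mkC (fun j => c * f (j + 1)) (by
        have h := (c0_tendsto f).comp (tendsto_add_atTop_nat 1)
        simpa using h.const_mul c)
      map_add' := by
        intro f g
        ext j
        show c * (f (j + 1) + g (j + 1)) = c * f (j + 1) + c * g (j + 1)
        ring
      map_smul' := by
        intro a f
        ext j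
        show c * (a * f (j + 1)) = a * (c * f (j + 1))
        ring } ‖c‖ (by
    intro f
    apply c0_norm_le _ _ (by positivity)
    intro j
    show ‖c * f (j + 1)‖ ≤ ‖c‖ * ‖f‖
    rw [norm_mul]
    exact mul_le_mul_of_nonneg_left (c0_coord_le f (j + 1)) (norm_nonneg _))

theorem bshift_apply (c : 𝕜) (f : C₀(ℕ, 𝕜)) (j : ℕ) : bshift c f j = c * f (j + 1) := rfl

/-- `c⁻¹` times the forward shift -/
noncomputable def fshift (c : 𝕜) (f : C₀(ℕ, 𝕜)) : C₀(ℕ, 𝕜) :=
  mkC (fun j => if j = 0 then 0 else c⁻¹ * f (j - 1)) (by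
    rw [← tendsto_add_atTop_iff_nat 1]
    have h := (c0_tendsto f).const_mul c⁻¹
    rw [mul_zero] at h
    refine h.congr fun j => ?_
    simp)

theorem fshift_apply (c : 𝕜) (f : C₀(ℕ, 𝕜)) (j : ℕ) :
    fshift c f j = if j = 0 then 0 else c⁻¹ * f (j - 1) := rfl

theorem fshift_norm (c : 𝕜) (f : C₀(ℕ, 𝕜)) : ‖fshift c f‖ ≤ ‖c‖⁻¹ * ‖f‖ := by
  apply c0_norm_le _ _ (by positivity)
  intro j
  rw [fshift_apply]
  split_ifs with h
  · rw [norm_zero]
    positivity
  · rw [norm_mul, norm_inv]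
    exact mul_le_mul_of_nonneg_left (c0_coord_le f _) (by positivity)

theorem fshift_iter_norm (c : 𝕜) (f : C₀(ℕ, 𝕜)) (n : ℕ) :
    ‖(fshift c)^[n] f‖ ≤ (‖c‖⁻¹) ^ n * ‖f‖ := by
  induction n with
  | zero => simp
  | succ n ih =>
    rw [Function.iterate_succ_apply']
    refine (fshift_norm c _).trans ?_
    rw [pow_succ, mul_comm ((‖c‖⁻¹) ^ n), mul_assoc]
    exact mul_le_mul_of_nonneg_left ih (by positivity)

theorem bshift_iter (c : 𝕜) (f : C₀(ℕ, 𝕜)) (n j : ℕ) :
    ((⇑(bshift c))^[n] f) j = c ^ n * f (n + j) := by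
  induction n generalizing j with
  | zero => simp
  | succ n ih =>
    rw [Function.iterate_succ_apply', bshift_apply, ih]
    have : n + (j + 1) = n + 1 + j := by ring
    rw [this, pow_succ]
    ring

/-- the finitely supported sequences -/
def fin0 (𝕜 : Type) [RCLike 𝕜] : Set C₀(ℕ, 𝕜) := {f | ∃ J, ∀ j, J ≤ j → f j = 0}

/-- the truncation of `f` -/
noncomputable def trunc (u : ℕ → 𝕜) (J : ℕ) : C₀(ℕ, 𝕜) :=
  mkC (fun j => if j < J then u j else 0) (by
    refine tendsto_const_nhds.congr' ?_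
    filter_upwards [eventually_ge_atTop J] with j hj
    rw [if_neg (by omega)])

theorem trunc_apply (u : ℕ → 𝕜) (J j : ℕ) : trunc u J j = if j < J then u j else 0 := rfl

theorem exists_trunc (f : C₀(ℕ, 𝕜)) {ε : ℝ} (hε : 0 < ε) :
    ∃ J, ∀ u : ℕ → 𝕜, (∀ j, j < J → ‖u j - f j‖ ≤ ε) → ‖trunc u J - f‖ ≤ ε := by
  have h := (c0_tendsto f).norm
  rw [norm_zero] at h
  obtain ⟨J, hJ⟩ := eventually_atTop.1 (h.eventually (ge_mem_nhds hε))
  refine ⟨J, fun u hu => ?_⟩
  apply c0_norm_le _ _ hε.le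
  intro j
  show ‖trunc u J j - f j‖ ≤ ε
  rw [trunc_apply]
  split_ifs with h1
  · exact hu j h1
  · rw [zero_sub, norm_neg]
    exact hJ j (by omega)

theorem fin0_dense : Dense (fin0 𝕜) := by
  rw [Metric.dense_iff]
  intro f r hr
  obtain ⟨J, hJ⟩ := exists_trunc f (show 0 < r / 2 by positivity)
  refine ⟨trunc (fun j => f j) J, ?_, J, fun j hj => ?_⟩
  · rw [Metric.mem_ball, dist_eq_norm]
    have := hJ (fun j => f j) (fun j _ => by simp; positivity)
    linarith
  · rw [trunc_apply, if_neg (by omega)]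

theorem c0_separable : TopologicalSpace.SeparableSpace C₀(ℕ, 𝕜) := by
  refine ⟨⟨Set.range (fun l : List ℕ =>
    trunc (fun j => TopologicalSpace.denseSeq 𝕜 (l.getD j 0)) l.length),
    Set.countable_range _, ?_⟩⟩
  rw [Metric.dense_iff]
  intro f r hr
  obtain ⟨J, hJ⟩ := exists_trunc f (show 0 < r / 2 by positivity)
  have hd := TopologicalSpace.denseRange_denseSeq 𝕜
  have hex : ∀ j, ∃ a, ‖TopologicalSpace.denseSeq 𝕜 a - f j‖ ≤ r / 2 := by
    intro j
    obtain ⟨a, ha⟩ := hd.exists_dist_lt (f j) (show 0 < r / 2 by positivity)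
    refine ⟨a, ?_⟩
    rw [dist_comm, dist_eq_norm] at ha
    exact ha.le
  choose a ha using hex
  refine ⟨trunc (fun j => TopologicalSpace.denseSeq 𝕜
    (((List.range J).map a).getD j 0)) ((List.range J).map a).length, ?_, ⟨_, rfl⟩⟩
  have hlen : ((List.range J).map a).length = J := by simp
  rw [Metric.mem_ball, dist_eq_norm, hlen]
  refine lt_of_le_of_lt (hJ _ ?_) (show r / 2 < r by linarith)
  intro j hj
  have : ((List.range J).map a).getD j 0 = a j := by
    rw [List.getD_eq_getElem?_getD]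
    simp [hj]
  rw [this]
  exact ha j

theorem bshift_criterion {c : 𝕜} (hc : 1 < ‖c‖) : FHCriterion 𝕜 (bshift c) := by
  have hc0 : c ≠ 0 := by
    intro h
    rw [h, norm_zero] at hc
    linarith
  refine ⟨(bshift c).isBoundedLinearMap, fin0 𝕜, fshift c, fin0_dense,
    fun f hf => ⟨?_, ?_, ?_, ?_⟩⟩
  · obtain ⟨J, hJ⟩ := hf
    refine ⟨J + 1, fun j hj => ?_⟩
    rw [fshift_apply, if_neg (by omega), hJ _ (by omega), mul_zero]
  · ext j
    rw [bshift_apply, fshift_apply, if_neg (by omega), Nat.add_sub_cancel, ← mul_assoc,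
      mul_inv_cancel₀ hc0, one_mul]
  · obtain ⟨J, hJ⟩ := hf
    apply summable_of_ne_finset_zero (s := Finset.range J)
    intro n hn
    rw [Finset.mem_range] at hn
    ext j
    rw [bshift_iter, hJ _ (by omega), mul_zero]
    rfl
  · refine Summable.of_norm_bounded (g := fun n : ℕ => (‖c‖⁻¹) ^ n * ‖f‖) ?_
      (fshift_iter_norm c f)
    exact (summable_geometric_of_lt_one (by positivity) (inv_lt_one_of_one_lt₀ hc)).mul_right _

theorem exists_away : ∃ U : Set C₀(ℕ, 𝕜), IsOpen U ∧ U.Nonempty ∧ 0 ∉ closure U := by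
  have hopen : IsOpen {f : C₀(ℕ, 𝕜) | 1 < ‖f‖} := isOpen_lt continuous_const continuous_norm
  refine ⟨{f | 1 < ‖f‖}, hopen, ?_, ?_⟩
  · refine ⟨trunc (fun _ => 2) 1, ?_⟩
    have h1 := c0_coord_le (trunc (fun _ => (2 : 𝕜)) 1) 0
    have h2 : trunc (fun _ => (2 : 𝕜)) 1 0 = 2 := by simp [trunc_apply]
    rw [h2, RCLike.norm_ofNat] at h1
    rw [Set.mem_ofPred_eq]
    linarith
  · intro h
    have h1 : closure {f : C₀(ℕ, 𝕜) | 1 < ‖f‖} ⊆ {f | 1 ≤ ‖f‖} :=
      closure_minimal (fun f (hf : 1 < ‖f‖) => hf.le)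
        (isClosed_le continuous_const continuous_norm)
    have h2 : 1 ≤ ‖(0 : C₀(ℕ, 𝕜))‖ := h1 h
    rw [norm_zero] at h2
    linarith

end Pool.Agent.MP115f17
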