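import Pool.Agent.Lib.MP_115f17_an.Build

set_option autoImplicit false

namespace Pool.Agent.MP115f17

open Filter Topology

section Vec

variable {𝕜 : Type*} [RCLike 𝕜] {X : Type*} [NormedAddCommGroup X] [NormedSpace 𝕜 X]
  [CompleteSpace X]

/-- target index of `p` -/
def ti (p : ℕ) : ℕ := (Nat.unpair p).1

theorem tannery {b : ℕ → ℤ → X} (hb : ∀ i, Summable (b i)) {M : ℕ → ℕ}
    (hM : ∀ p, ∀ F : Finset ℤ, (∀ r ∈ F, (M p : ℤ) ≤ |r|) → ‖∑ r ∈ F, b (ti p) r‖ ≤ (1 / 4) ^ p)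
    {ε : ℝ} (hε : 0 < ε) :
    ∃ R : ℕ, ∀ (n : ℕ) (Q : Set ℕ),
      (∀ p ∈ Q, ∀ m ∈ tm M p, (M p : ℤ) ≤ |(m : ℤ) - n| ∧ (R : ℤ) ≤ |(m : ℤ) - n|) →
      ‖∑' p, Q.indicator (fun p => G (tm M p) (b (ti p)) n) p‖ ≤ ε := by
  obtain ⟨P0, hP0⟩ : ∃ P0 : ℕ, (1 / 2 : ℝ) ^ P0 ≤ ε / 2 := by
    obtain ⟨P0, h⟩ := exists_pow_lt_of_lt_one (show 0 < ε / 2 by positivity)
      (show (1 / 2 : ℝ) < 1 by norm_num)
    exact ⟨P0, h.le⟩
  have hR : ∀ p : ℕ, ∃ R : ℕ, ∀ F : Finset ℤ, (∀ r ∈ F, (R : ℤ) ≤ |r|) →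
      ‖∑ r ∈ F, b (ti p) r‖ ≤ ε / 2 * (1 / 2) ^ p := fun p => vanish (hb _) (by positivity)
  choose R hR using hR
  refine ⟨(Finset.range P0).sup R, fun n Q hQ => ?_⟩
  have hg : HasSum (fun p : ℕ => ε / 2 * (1 / 2 : ℝ) ^ p) ε := by
    have := hasSum_geometric_two.mul_left (ε / 2)
    have e : ε / 2 * 2 = ε := by ring
    rwa [e] at this
  refine tsum_of_norm_bounded hg fun p => ?_
  by_cases hp : p ∈ Q
  · rw [Set.indicator_of_mem hp]
    by_cases h : p < P0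
    · apply G_bound (hb _) (hR p)
      intro m hm
      have h1 := (hQ p hp m hm).2
      have h2 : R p ≤ (Finset.range P0).sup R := Finset.le_sup (Finset.mem_range.2 h)
      have h3 : (R p : ℤ) ≤ (((Finset.range P0).sup R : ℕ) : ℤ) := by exact_mod_cast h2
      exact h3.trans h1
    · have h1 : ‖G (tm M p) (b (ti p)) n‖ ≤ (1 / 4) ^ p :=
        G_bound (hb _) (hM p) fun m hm => (hQ p hp m hm).1
      refine h1.trans ?_
      have e : (1 / 4 : ℝ) ^ p = (1 / 2) ^ p * (1 / 2) ^ p := by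
        rw [← mul_pow]
        norm_num
      rw [e]
      apply mul_le_mul_of_nonneg_right _ (by positivity)
      refine le_trans ?_ hP0
      exact pow_le_pow_of_le_one (by norm_num) (by norm_num) (by omega)
  · rw [Set.indicator_of_notMem hp, norm_zero]
    positivity

theorem summ_main {b : ℕ → ℤ → X} (hb : ∀ i, Summable (b i)) {M : ℕ → ℕ}
    (hM : ∀ p, ∀ F : Finset ℤ, (∀ r ∈ F, (M p : ℤ) ≤ |r|) → ‖∑ r ∈ F, b (ti p) r‖ ≤ (1 / 4) ^ p) :
    Summable (fun p => G (tm M p) (b (ti p)) 0) := by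
  refine Summable.of_norm_bounded (g := fun p : ℕ => (1 / 4 : ℝ) ^ p)
    (summable_geometric_of_lt_one (by norm_num) (by norm_num)) fun p => ?_
  apply G_bound (hb _) (hM p)
  intro m hm
  obtain ⟨k, hk1, hkp, hkM, hm1, hm2, -⟩ := hm
  have h := pow_ge hkM
  have h2 : M p ≤ m := by omega
  simp only [Nat.cast_zero, sub_zero]
  rw [abs_of_nonneg (by positivity)]
  exact_mod_cast h2

theorem hasSum_orbit (T : X →L[𝕜] X) {b : ℕ → ℤ → X} (hb : ∀ i, Summable (b i))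
    (hT : ∀ i r, T (b i r) = b i (r - 1)) {M : ℕ → ℕ}
    (hM : ∀ p, ∀ F : Finset ℤ, (∀ r ∈ F, (M p : ℤ) ≤ |r|) → ‖∑ r ∈ F, b (ti p) r‖ ≤ (1 / 4) ^ p)
    (n : ℕ) :
    HasSum (fun p => G (tm M p) (b (ti p)) n)
      ((⇑T)^[n] (∑' p, G (tm M p) (b (ti p)) 0)) := by
  induction n with
  | zero => exact (summ_main hb hM).hasSum
  | succ n ih =>
    rw [Function.iterate_succ_apply']
    have h := T.hasSum ih
    have e : (fun p => T (G (tm M p) (b (ti p)) n)) = fun p => G (tm M p) (b (ti p)) (n + 1) := by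
      funext p
      exact G_step T _ (hb _) (hT _) n
    have h' : HasSum (fun p => T (G (tm M p) (b (ti p)) n))
      (T ((⇑T)^[n] (∑' p, G (tm M p) (b (ti p)) 0))) := h
    rwa [e] at h'

end Vec

/-- bounds for the proportion -/
theorem frac_le_one (A : Set ℕ) (N : ℕ) : frac A N ≤ 1 := by
  unfold frac
  rw [div_le_one (by positivity)]
  have h : (A ∩ Set.Iic N).ncard ≤ (Set.Iic N).ncard :=
    Set.ncard_le_ncard Set.inter_subset_right (Set.finite_Iic N)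
  have h2 : (Set.Iic N).ncard = N + 1 := by
    rw [← Finset.coe_Iic, Set.ncard_coe_finset, Nat.card_Iic]
  rw [h2] at h
  exact_mod_cast h

theorem frac_mono {A B : Set ℕ} (h : A ⊆ B) (N : ℕ) : frac A N ≤ frac B N := by
  unfold frac
  apply div_le_div_of_nonneg_right _ (by positivity)
  have : (A ∩ Set.Iic N).ncard ≤ (B ∩ Set.Iic N).ncard :=
    Set.ncard_le_ncard (Set.inter_subset_inter_left _ h)
      ((Set.finite_Iic N).subset Set.inter_subset_right)
  exact_mod_cast this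

theorem lower_pos {A : Set ℕ} {c : ℝ} (hc : 0 < c) (h : ∀ᶠ N : ℕ in atTop, c ≤ frac A N) :
    0 < lowerDensity A := by
  refine lt_of_lt_of_le hc ?_
  unfold lowerDensity
  exact le_liminf_of_le
    (isBoundedUnder_of ⟨1, fun N => frac_le_one A N⟩ : IsBoundedUnder (· ≤ ·) atTop
      (frac A)).isCoboundedUnder_ge h

/-- a set that misses the middle of infinitely many gaps cannot have a positive density -/
theorem dens_zero {A : Set ℕ} {d : ℝ} (hd : HasDensity A d)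
    (h : ∀ᶠ j : ℕ in atTop, ∀ n, 10 * 4 ^ j ≤ n → n ≤ 12 * 4 ^ j → n ∉ A) : d = 0 := by
  have ha : Tendsto (fun j : ℕ => 10 * 4 ^ j) atTop atTop := by
    apply tendsto_atTop_mono (f := fun j : ℕ => j) _ tendsto_id
    intro j
    have : j < 4 ^ j := Nat.lt_pow_self (by norm_num)
    show j ≤ 10 * 4 ^ j
    omega
  have hb : Tendsto (fun j : ℕ => 12 * 4 ^ j) atTop atTop := by
    apply tendsto_atTop_mono (f := fun j : ℕ => j) _ tendsto_id
    intro j
    have : j < 4 ^ j := Nat.lt_pow_self (by norm_num)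
    show j ≤ 12 * 4 ^ j
    omega
  have h1 : Tendsto (fun j : ℕ => frac A (10 * 4 ^ j)) atTop (𝓝 d) := hd.comp ha
  have h2 : Tendsto (fun j : ℕ => frac A (12 * 4 ^ j)) atTop (𝓝 d) := hd.comp hb
  have h4 : Tendsto (fun j : ℕ => (1 / 4 : ℝ) ^ j) atTop (𝓝 0) :=
    tendsto_pow_atTop_nhds_zero_of_lt_one (by norm_num) (by norm_num)
  have h5 : Tendsto (fun j : ℕ => frac A (10 * 4 ^ j) * (10 + (1 / 4 : ℝ) ^ j)) atTop
      (𝓝 (d * (10 + 0))) := h1.mul (h4.const_add 10)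
  have h6 : Tendsto (fun j : ℕ => frac A (12 * 4 ^ j) * (12 + (1 / 4 : ℝ) ^ j)) atTop
      (𝓝 (d * (12 + 0))) := h2.mul (h4.const_add 12)
  have h7 : (fun j : ℕ => frac A (10 * 4 ^ j) * (10 + (1 / 4 : ℝ) ^ j)) =ᶠ[atTop]
      fun j : ℕ => frac A (12 * 4 ^ j) * (12 + (1 / 4 : ℝ) ^ j) := by
    filter_upwards [h] with j hj
    have hset : A ∩ Set.Iic (12 * 4 ^ j) = A ∩ Set.Iic (10 * 4 ^ j) := by
      ext n
      constructor
      · rintro ⟨h8, h9⟩
        refine ⟨h8, ?_⟩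
        by_contra h10
        have h11 : 10 * 4 ^ j ≤ n := by
          have : ¬ n ≤ 10 * 4 ^ j := h10
          omega
        exact hj n h11 h9 h8
      · rintro ⟨h8, h9⟩
        refine ⟨h8, ?_⟩
        have : n ≤ 10 * 4 ^ j := h9
        show n ≤ 12 * 4 ^ j
        omega
    unfold frac
    rw [hset]
    have h40 : (4 : ℝ) ^ j ≠ 0 := by positivity
    have e : (1 / 4 : ℝ) ^ j = 1 / 4 ^ j := by rw [one_div, one_div, inv_pow]
    rw [e]
    push_cast
    have hp : (0 : ℝ) < 4 ^ j := by positivity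
    have ha' : (10 * (4 : ℝ) ^ j + 1) ≠ 0 := by positivity
    have hb' : (12 * (4 : ℝ) ^ j + 1) ≠ 0 := by positivity
    field_simp
  have h8 := tendsto_nhds_unique (h5.congr' h7) h6
  linarith

end Pool.Agent.MP115f17
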